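import Mathlib

/-!
Word balls and the set of exponential growth rates of a group.
-/

namespace Pool.Agent.MP_646035_al

open Filter Topology

/-- `B_S(n)`: the elements of word length at most `n` with respect to `S ∪ S⁻¹`. -/
def ball {G : Type*} [Group G] (S : Finset G) (n : ℕ) : Set G :=
  {g | ∃ w : List G, w.length ≤ n ∧ (∀ x ∈ w, x ∈ S ∨ x⁻¹ ∈ S) ∧ w.prod = g}

/-- `𝓔(G)`: the set of the limits `lim |B_S(n)|^(1/n)`, over the finite generating sets `S`. -/
def growthSet (G : Type*) [Group G] : Set ℝ :=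
  {e | ∃ S : Finset G, Subgroup.closure (S : Set G) = ⊤ ∧
    Tendsto (fun n : ℕ => ((ball S n).ncard : ℝ) ^ (1 / (n : ℝ))) atTop (𝓝 e)}

end Pool.Agent.MP_646035_al
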