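import Pool.Agent.MP_646035_al.Defs

namespace Pool.Agent.MP_646035_al

open Filter Topology Set
open scoped Pointwise

variable {G : Type*} [Group G]

lemma one_mem_ball (S : Finset G) (n : ℕ) : (1 : G) ∈ ball S n :=
  ⟨[], by simp, by simp, rfl⟩

lemma ball_mono (S : Finset G) {m n : ℕ} (h : m ≤ n) : ball S m ⊆ ball S n := by
  rintro g ⟨w, h1, h2, h3⟩
  exact ⟨w, h1.trans h, h2, h3⟩

lemma mul_mem_ball {S : Finset G} {m n : ℕ} {g h : G} (hg : g ∈ ball S m) (hh : h ∈ ball S n) :
    g * h ∈ ball S (m + n) := by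
  obtain ⟨w, h1, h2, rfl⟩ := hg
  obtain ⟨w', h1', h2', rfl⟩ := hh
  refine ⟨w ++ w', by simp; omega, ?_, by simp⟩
  intro x hx
  rcases List.mem_append.1 hx with hx | hx
  · exact h2 x hx
  · exact h2' x hx

lemma mem_ball_one {S : Finset G} {x : G} (hx : x ∈ S) : x ∈ ball S 1 :=
  ⟨[x], by simp, by simp [hx], by simp⟩

lemma inv_mem_ball {S : Finset G} {n : ℕ} {g : G} (hg : g ∈ ball S n) : g⁻¹ ∈ ball S n := by
  obtain ⟨w, h1, h2, rfl⟩ := hg
  refine ⟨(w.map (·⁻¹)).reverse, by simpa using h1, ?_, by rw [List.prod_inv_reverse]⟩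
  intro x hx
  simp only [List.mem_reverse, List.mem_map] at hx
  obtain ⟨y, hy, rfl⟩ := hx
  rcases h2 y hy with h | h
  · right; simpa using h
  · left; exact h

lemma ball_add_subset (S : Finset G) (m n : ℕ) : ball S (m + n) ⊆ ball S m * ball S n := by
  rintro g ⟨w, h1, h2, rfl⟩
  refine ⟨(w.take m).prod, ⟨w.take m, by simp, fun x hx => h2 x (List.mem_of_mem_take hx), rfl⟩,
    (w.drop m).prod, ⟨w.drop m, by simp; omega, fun x hx => h2 x (List.mem_of_mem_drop hx), rfl⟩,
    by simp only [List.prod_take_mul_prod_drop]⟩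

/-- Induction on words, adding letters on the right. -/
lemma ball_induction {S : Finset G} (P : ℕ → G → Prop) (h0 : P 0 1)
    (hmono : ∀ r g, P r g → P (r + 1) g)
    (hstep : ∀ r g x, P r g → (x ∈ S ∨ x⁻¹ ∈ S) → P (r + 1) (g * x)) :
    ∀ r g, g ∈ ball S r → P r g := by
  have hm : ∀ r r' g, r ≤ r' → P r g → P r' g := by
    intro r r' g h hp
    induction h with
    | refl => exact hp
    | step _ ih => exact hmono _ _ ih
  have key : ∀ w : List G, (∀ x ∈ w, x ∈ S ∨ x⁻¹ ∈ S) → P w.length w.prod := by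
    intro w
    induction w using List.reverseRecOn with
    | nil => intro _; exact h0
    | append_singleton w x ih =>
      intro hw
      rw [List.length_append, List.prod_append, List.prod_singleton]
      exact hstep _ _ _ (ih fun y hy => hw y (by simp [hy])) (hw x (by simp))
  rintro r g ⟨w, h1, h2, rfl⟩
  exact hm _ _ _ h1 (key w h2)

lemma ball_finite (S : Finset G) (n : ℕ) : (ball S n).Finite := by
  classical
  have h1 : (ball S 1).Finite := by
    refine ((S.finite_toSet.union S.finite_toSet.inv).insert 1).subset ?_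
    rintro g ⟨w, h1, h2, rfl⟩
    match w, h1, h2 with
    | [], _, _ => simp
    | [x], _, h2 =>
      rcases h2 x (by simp) with h | h
      · simp [h]
      · simp [h]
  induction n with
  | zero =>
    exact h1.subset (ball_mono S zero_le_one)
  | succ n ih => exact (ih.mul h1).subset (ball_add_subset S n 1)

lemma one_le_ncard_ball (S : Finset G) (n : ℕ) : 1 ≤ (ball S n).ncard :=
  (Set.ncard_pos (ball_finite S n)).2 ⟨1, one_mem_ball S n⟩

lemma ncard_ball_add (S : Finset G) (m n : ℕ) :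
    (ball S (m + n)).ncard ≤ (ball S m).ncard * (ball S n).ncard :=
  (Set.ncard_le_ncard (ball_add_subset S m n) ((ball_finite S m).mul (ball_finite S n))).trans
    (by simpa only [Nat.card_coe_set_eq] using (Set.natCard_mul_le (s := ball S m) (t := ball S n)))

lemma ball_map {H : Type*} [Group H] [DecidableEq H] (f : G →* H)
    (S : Finset G) (n : ℕ) : ball (S.image f) n = f '' ball S n := by
  ext h
  constructor
  · intro hh
    refine ball_induction (S := S.image f) (fun r h => h ∈ f '' ball S r)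
      ⟨1, one_mem_ball S 0, map_one f⟩ ?_ ?_ n h hh
    · rintro r g ⟨g', hg', rfl⟩
      exact ⟨g', ball_mono S (Nat.le_succ r) hg', rfl⟩
    · rintro r g x ⟨g', hg', rfl⟩ hx
      rcases hx with hx | hx
      · obtain ⟨y, hy, rfl⟩ := Finset.mem_image.1 hx
        exact ⟨g' * y, mul_mem_ball hg' (mem_ball_one hy), by simp⟩
      · obtain ⟨y, hy, hxy⟩ := Finset.mem_image.1 hx
        refine ⟨g' * y⁻¹, mul_mem_ball hg' (inv_mem_ball (mem_ball_one hy)), ?_⟩
        simp [hxy]
  · rintro ⟨g, ⟨w, h1, h2, rfl⟩, rfl⟩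
    refine ⟨w.map f, by simpa using h1, ?_, by rw [map_list_prod]⟩
    intro x hx
    obtain ⟨y, hy, rfl⟩ := List.mem_map.1 hx
    rcases h2 y hy with h | h
    · left; exact Finset.mem_image_of_mem f h
    · right; rw [← map_inv]; exact Finset.mem_image_of_mem f h

lemma ncard_ball_map {H : Type*} [Group H] [DecidableEq H] (f : G →* H)
    (hf : Function.Injective f) (S : Finset G) (n : ℕ) :
    (ball (S.image f) n).ncard = (ball S n).ncard := by
  rw [ball_map f, Set.ncard_image_of_injective _ hf]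

/-- `e` is the growth rate of `S`. -/
def IsRate (S : Finset G) (e : ℝ) : Prop :=
  Tendsto (fun n : ℕ => ((ball S n).ncard : ℝ) ^ (1 / (n : ℝ))) atTop (𝓝 e)

lemma exists_isRate (S : Finset G) : ∃ e, IsRate S e := by
  have hpos : ∀ n, (0 : ℝ) < (ball S n).ncard := fun n => by
    exact_mod_cast one_le_ncard_ball S n
  have hsub : Subadditive fun n => Real.log (ball S n).ncard := by
    intro m n
    rw [← Real.log_mul (hpos m).ne' (hpos n).ne']
    exact Real.log_le_log (hpos _) (by exact_mod_cast ncard_ball_add S m n)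
  have hbdd : BddBelow (range fun n : ℕ => Real.log (ball S n).ncard / n) := by
    refine ⟨0, ?_⟩
    rintro _ ⟨n, rfl⟩
    exact div_nonneg (Real.log_nonneg (by exact_mod_cast one_le_ncard_ball S n)) (Nat.cast_nonneg n)
  refine ⟨Real.exp hsub.lim, ?_⟩
  have := (Real.continuous_exp.tendsto _).comp (hsub.tendsto_lim hbdd)
  refine this.congr fun n => ?_
  simp only [Function.comp]
  rw [Real.rpow_def_of_pos (hpos n)]
  congr 1
  ring

lemma IsRate.one_le {S : Finset G} {e : ℝ} (h : IsRate S e) : 1 ≤ e :=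
  ge_of_tendsto' h fun n =>
    Real.one_le_rpow (by exact_mod_cast one_le_ncard_ball S n) (by positivity)

lemma IsRate.exists_bound {S : Finset G} {e : ℝ} (h : IsRate S e) {κ : ℝ} (hκ : 1 < κ) :
    ∃ C : ℝ, 0 < C ∧ ∀ r, ((ball S r).ncard : ℝ) ≤ C * (e * κ) ^ r := by
  have he := h.one_le
  have hlt : e < e * κ := by nlinarith
  obtain ⟨N, hN⟩ := eventually_atTop.1 (h.eventually (gt_mem_nhds hlt))
  refine ⟨(ball S (N + 1)).ncard, by exact_mod_cast one_le_ncard_ball S _, fun r => ?_⟩
  have h1 : (1 : ℝ) ≤ (e * κ) ^ r := one_le_pow₀ (by nlinarith)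
  have hC : (1 : ℝ) ≤ (ball S (N + 1)).ncard := by exact_mod_cast one_le_ncard_ball S _
  rcases le_or_gt r (N + 1) with hr | hr
  · have : ((ball S r).ncard : ℝ) ≤ (ball S (N + 1)).ncard := by
      exact_mod_cast Set.ncard_le_ncard (ball_mono S hr) (ball_finite S _)
    nlinarith
  · have h2 := (hN r (by omega)).le
    have hr0 : r ≠ 0 := by omega
    have h3 : ((ball S r).ncard : ℝ) ≤ (e * κ) ^ r := by
      have := pow_le_pow_left₀ (by positivity) h2 r
      rwa [one_div, Real.rpow_inv_natCast_pow (by positivity) hr0] at this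
    nlinarith

lemma IsRate.le_of_bound {S : Finset G} {e : ℝ} (h : IsRate S e) {z C : ℝ} (hz : 0 < z)
    (hb : ∀ r : ℕ, z ^ r * ((ball S r).ncard : ℝ) ≤ C * ((r : ℝ) + 1) ^ 3) : e ≤ 1 / z := by
  by_contra hcon
  push Not at hcon
  obtain ⟨b, hb1, hb2⟩ := exists_between hcon
  have hb0 : 0 < b := lt_trans (by positivity) hb1
  have hzb : 1 < z * b := by
    rw [div_lt_iff₀ hz] at hb1; linarith
  have hev : ∀ᶠ r : ℕ in atTop, (z * b) ^ r ≤ C * ((r : ℝ) + 1) ^ 3 := by
    filter_upwards [h.eventually (lt_mem_nhds hb2), eventually_ne_atTop 0] with r hr hr0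
    have h3 : b ^ r ≤ ((ball S r).ncard : ℝ) := by
      have := pow_le_pow_left₀ hb0.le hr.le r
      rwa [one_div, Real.rpow_inv_natCast_pow (by positivity) hr0] at this
    calc (z * b) ^ r = z ^ r * b ^ r := mul_pow _ _ _
      _ ≤ z ^ r * ((ball S r).ncard : ℝ) := by gcongr
      _ ≤ _ := hb r
  have hlim : Tendsto (fun r : ℕ => ((r + 1 : ℕ) : ℝ) ^ 3 / (z * b) ^ (r + 1)) atTop (𝓝 0) :=
    (tendsto_pow_const_div_const_pow_of_one_lt 3 hzb).comp (tendsto_add_atTop_nat 1)
  have hlim2 := hlim.const_mul (C * (z * b))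
  rw [mul_zero] at hlim2
  obtain ⟨r, hr1, hr2⟩ := (hev.and (hlim2.eventually (gt_mem_nhds one_pos))).exists
  have hp : 0 < (z * b) ^ r := by positivity
  have : C * (z * b) * (((r + 1 : ℕ) : ℝ) ^ 3 / (z * b) ^ (r + 1))
      = C * ((r : ℝ) + 1) ^ 3 / (z * b) ^ r := by
    push_cast
    field_simp
    ring
  rw [this, div_lt_one hp] at hr2
  linarith

end Pool.Agent.MP_646035_al
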