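import Mathlib

/-!
Ferromagnetic Ising partition functions: monotonicity, embeddings and the inequality for double
covers, with a gain for every frustrated cycle.
-/

namespace Pool.Agent.MP_646035_al

open Finset

/-- The sign `(-1)^u`. -/
noncomputable def sg (u : ZMod 2) : ℝ := if u = 0 then 1 else -1

lemma z2_cases (u : ZMod 2) : u = 0 ∨ u = 1 := by
  revert u; decide

@[simp] lemma sg_zero : sg 0 = 1 := by simp [sg]
@[simp] lemma sg_one : sg 1 = -1 := by simp [sg]

lemma z2_one_add_one : (1 : ZMod 2) + 1 = 0 := by decide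

lemma z2_add_self (u : ZMod 2) : u + u = 0 := by revert u; decide

lemma sg_add (u v : ZMod 2) : sg (u + v) = sg u * sg v := by
  rcases z2_cases u with rfl | rfl <;> rcases z2_cases v with rfl | rfl <;>
    simp [z2_one_add_one]

lemma sg_cases (u : ZMod 2) : sg u = 1 ∨ sg u = -1 := by
  rcases z2_cases u with rfl | rfl <;> simp

lemma sg_mul_self (u : ZMod 2) : sg u * sg u = 1 := by
  rcases sg_cases u with h | h <;> simp [h]

lemma sg_sum {ι : Type*} (P : Finset ι) (f : ι → ZMod 2) :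
    sg (∑ i ∈ P, f i) = ∏ i ∈ P, sg (f i) := by
  classical
  induction P using Finset.induction_on with
  | empty => simp
  | insert a s ha ih => rw [sum_insert ha, prod_insert ha, sg_add, ih]

section cone
variable {A : Type*} [AddCommGroup A]

/-- Nonnegative combinations of characters. -/
inductive Pos : (A → ℝ) → Prop
  | char (c : ℝ) (hc : 0 ≤ c) (φ : A →+ ZMod 2) : Pos (fun a => c * sg (φ a))
  | add {f g : A → ℝ} : Pos f → Pos g → Pos (f + g)

lemma Pos.of_eq {f g : A → ℝ} (h : Pos f) (e : ∀ a, f a = g a) : Pos g := by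
  have : f = g := funext e
  exact this ▸ h

lemma Pos.const {c : ℝ} (hc : 0 ≤ c) : Pos (fun _ : A => c) :=
  (Pos.char c hc 0).of_eq (by simp)

lemma Pos.mul {f g : A → ℝ} (hf : Pos f) (hg : Pos g) : Pos (f * g) := by
  induction hf with
  | add _ _ ih1 ih2 => rw [add_mul]; exact ih1.add ih2
  | char c hc φ =>
    induction hg with
    | add _ _ ih1 ih2 => rw [mul_add]; exact ih1.add ih2
    | char d hd ψ =>
      refine (Pos.char (c * d) (mul_nonneg hc hd) (φ + ψ)).of_eq fun a => ?_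
      simp [sg_add]; ring

lemma Pos.smul {f : A → ℝ} (hf : Pos f) {c : ℝ} (hc : 0 ≤ c) : Pos (fun a => c * f a) :=
  (Pos.const hc).mul hf

lemma Pos.affine {c d : ℝ} (hc : 0 ≤ c) (hd : 0 ≤ d) (φ : A →+ ZMod 2) :
    Pos (fun a => c + d * sg (φ a)) :=
  (Pos.const hc).add (Pos.char d hd φ)

lemma Pos.prod {ι : Type*} (P : Finset ι) {f : ι → A → ℝ} (h : ∀ i ∈ P, Pos (f i)) :
    Pos (fun a => ∏ i ∈ P, f i a) := by
  classical
  induction P using Finset.induction_on with
  | empty => simpa using Pos.const (A := A) zero_le_one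
  | insert a s ha ih =>
    refine ((h a (mem_insert_self _ _)).mul (ih fun i hi => h i (mem_insert_of_mem hi))).of_eq ?_
    intro x
    simp [prod_insert ha]

lemma Pos.sum_nonneg [Fintype A] {f : A → ℝ} (hf : Pos f) : 0 ≤ ∑ a, f a := by
  induction hf with
  | add _ _ ih1 ih2 =>
    simp only [Pi.add_apply, sum_add_distrib]
    exact add_nonneg ih1 ih2
  | char c hc φ =>
    rw [← mul_sum]
    refine mul_nonneg hc ?_
    by_cases h : ∀ a, φ a = 0
    · simp [h]
    · push Not at h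
      obtain ⟨a0, ha0⟩ := h
      have h1 : φ a0 = 1 := (z2_cases _).resolve_left ha0
      have h2 : ∑ a, sg (φ a) = ∑ a, sg (φ (a0 + a)) :=
        (Fintype.sum_equiv (Equiv.addLeft a0) _ _ (fun a => rfl)).symm
      have h3 : ∑ a, sg (φ (a0 + a)) = -∑ a, sg (φ a) := by
        rw [← sum_neg_distrib]
        refine sum_congr rfl fun a _ => ?_
        rw [map_add, sg_add, h1]; simp
      linarith

/-- `f` dominates `f'` coefficientwise. -/
def Dom (f' f : A → ℝ) : Prop := Pos (fun a => f a + f' a) ∧ Pos (fun a => f a - f' a)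

lemma Dom.mul {f' f g' g : A → ℝ} (hf : Dom f' f) (hg : Dom g' g) :
    Dom (fun a => f' a * g' a) (fun a => f a * g a) := by
  constructor
  · refine (((hf.1.mul hg.1).add (hf.2.mul hg.2)).smul (c := 1 / 2) (by norm_num)).of_eq ?_
    intro a; simp only [Pi.add_apply, Pi.mul_apply]; ring
  · refine (((hf.1.mul hg.2).add (hf.2.mul hg.1)).smul (c := 1 / 2) (by norm_num)).of_eq ?_
    intro a; simp only [Pi.add_apply, Pi.mul_apply]; ring

lemma Dom.prod {ι : Type*} (P : Finset ι) {f' f : ι → A → ℝ} (h : ∀ i ∈ P, Dom (f' i) (f i)) :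
    Dom (fun a => ∏ i ∈ P, f' i a) (fun a => ∏ i ∈ P, f i a) := by
  classical
  induction P using Finset.induction_on with
  | empty =>
    constructor
    · simpa using Pos.const (A := A) (c := 1 + 1) (by norm_num)
    · simpa using Pos.const (A := A) le_rfl
  | insert a s ha ih =>
    have := (h a (mem_insert_self _ _)).mul (ih fun i hi => h i (mem_insert_of_mem hi))
    simpa only [prod_insert ha] using this

lemma Dom.sum_le [Fintype A] {f' f : A → ℝ} (h : Dom f' f) : ∑ a, f' a ≤ ∑ a, f a := by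
  have := h.2.sum_nonneg
  rw [sum_sub_distrib] at this
  linarith

lemma dom_affine {a b b' : ℝ} (ha : 0 ≤ a) (h1 : b' ≤ b) (h2 : -b' ≤ b) (φ : A →+ ZMod 2) :
    Dom (fun x => a + b' * sg (φ x)) (fun x => a + b * sg (φ x)) := by
  constructor
  · refine (Pos.affine (c := 2 * a) (d := b + b') (by linarith) (by linarith) φ).of_eq ?_
    intro x; ring
  · refine (Pos.char (b - b') (by linarith) φ).of_eq ?_
    intro x; ring

lemma pos_path {ι : Type*} (P : Finset ι) (a b : ι → ℝ) (φ : ι → A →+ ZMod 2) {β : ℝ}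
    (hβ0 : 0 ≤ β) (hβ1 : β ≤ 1) (ha : ∀ i ∈ P, 0 ≤ a i) (hab : ∀ i ∈ P, β * a i ≤ b i)
    (hba : ∀ i ∈ P, b i ≤ a i) :
    Pos (fun x => ∏ i ∈ P, (a i + b i * sg (φ i x))
        - β ^ P.card * ∏ i ∈ P, (b i + a i * sg (φ i x))) ∧
      Pos (fun x => ∏ i ∈ P, (b i + a i * sg (φ i x))
        - β ^ P.card * ∏ i ∈ P, (a i + b i * sg (φ i x))) := by
  classical
  induction P using Finset.induction_on with
  | empty => constructor <;> simpa using Pos.const (A := A) le_rfl
  | insert j s hj ih =>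
    have ha' := fun i hi => ha i (mem_insert_of_mem hi)
    have hab' := fun i hi => hab i (mem_insert_of_mem hi)
    have hba' := fun i hi => hba i (mem_insert_of_mem hi)
    obtain ⟨ih1, ih2⟩ := ih ha' hab' hba'
    have haj := ha j (mem_insert_self _ _)
    have habj := hab j (mem_insert_self _ _)
    have hbaj := hba j (mem_insert_self _ _)
    have hbj : 0 ≤ b j := le_trans (mul_nonneg hβ0 haj) habj
    have hb' : ∀ i ∈ s, 0 ≤ b i := fun i hi => le_trans (mul_nonneg hβ0 (ha' i hi)) (hab' i hi)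
    have hq : Pos (fun x => ∏ i ∈ s, (a i + b i * sg (φ i x))) :=
      Pos.prod s fun i hi => Pos.affine (ha' i hi) (hb' i hi) _
    have hq' : Pos (fun x => ∏ i ∈ s, (b i + a i * sg (φ i x))) :=
      Pos.prod s fun i hi => Pos.affine (hb' i hi) (ha' i hi) _
    have hd1 : 0 ≤ a j - β * b j := by nlinarith
    have hd2 : 0 ≤ b j - β * a j := by linarith
    constructor
    · refine ((ih1.mul (Pos.affine haj hbj (φ j))).add
        ((hq'.mul (Pos.affine hd1 hd2 (φ j))).smul (pow_nonneg hβ0 s.card))).of_eq fun x => ?_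
      simp only [Pi.add_apply, Pi.mul_apply, prod_insert hj, card_insert_of_notMem hj]
      ring
    · refine ((ih2.mul (Pos.affine hbj haj (φ j))).add
        ((hq.mul (Pos.affine hd2 hd1 (φ j))).smul (pow_nonneg hβ0 s.card))).of_eq fun x => ?_
      simp only [Pi.add_apply, Pi.mul_apply, prod_insert hj, card_insert_of_notMem hj]
      ring

/-- A frustrated cycle is dominated by a proper fraction of the unfrustrated one. -/
lemma dom_cycle {ι : Type*} (P : Finset ι) (a b : ι → ℝ) (φ : ι → A →+ ZMod 2) {β : ℝ}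
    (hβ0 : 0 ≤ β) (hβ1 : β ≤ 1) (ha : ∀ i ∈ P, 0 ≤ a i) (hab : ∀ i ∈ P, β * a i ≤ b i)
    (hba : ∀ i ∈ P, b i ≤ a i) (a0 b0 : ℝ) (φ0 : A →+ ZMod 2) (ha0 : 0 ≤ a0)
    (hab0 : β * a0 ≤ b0) (hba0 : b0 ≤ a0) (hcyc : ∀ x, φ0 x = ∑ i ∈ P, φ i x)
    {N : ℕ} (hN : P.card ≤ N) :
    Dom (fun x => (a0 + -b0 * sg (φ0 x)) * ∏ i ∈ P, (a i + b i * sg (φ i x)))
      (fun x => (1 - β ^ (N + 1)) * ((a0 + b0 * sg (φ0 x)) * ∏ i ∈ P, (a i + b i * sg (φ i x)))) := by
  obtain ⟨h1, h2⟩ := pos_path P a b φ hβ0 hβ1 ha hab hba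
  have hb' : ∀ i ∈ P, 0 ≤ b i := fun i hi => le_trans (mul_nonneg hβ0 (ha i hi)) (hab i hi)
  have hq : Pos (fun x => ∏ i ∈ P, (a i + b i * sg (φ i x))) :=
    Pos.prod P fun i hi => Pos.affine (ha i hi) (hb' i hi) _
  have hq' : Pos (fun x => ∏ i ∈ P, (b i + a i * sg (φ i x))) :=
    Pos.prod P fun i hi => Pos.affine (hb' i hi) (ha i hi) _
  have hkey : ∀ x, ∏ i ∈ P, (b i + a i * sg (φ i x))
      = sg (φ0 x) * ∏ i ∈ P, (a i + b i * sg (φ i x)) := by
    intro x
    rw [hcyc, sg_sum, ← prod_mul_distrib]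
    refine prod_congr rfl fun i _ => ?_
    have := sg_mul_self (φ i x)
    linear_combination (-b i) * this
  set δ := β ^ (N + 1) with hδ
  set γ := β ^ P.card with hγ
  have hb0 : 0 ≤ b0 := le_trans (mul_nonneg hβ0 ha0) hab0
  have hγ0 : 0 ≤ γ := pow_nonneg hβ0 _
  have hδ0 : 0 ≤ δ := pow_nonneg hβ0 _
  have hδγ : δ ≤ γ * β := by
    rw [hδ, hγ, ← pow_succ]
    exact pow_le_pow_of_le_one hβ0 hβ1 (by omega)
  have hδ1 : δ ≤ 1 := pow_le_one₀ hβ0 hβ1
  have hδγ' : δ ≤ γ := hδγ.trans (by nlinarith)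
  constructor
  · have hc : 0 ≤ (2 - δ) * a0 * γ - δ * b0 := by
      have : δ * b0 ≤ γ * a0 := mul_le_mul hδγ' hba0 hb0 hγ0
      have h' : 0 ≤ (1 - δ) * (a0 * γ) := mul_nonneg (by linarith) (mul_nonneg ha0 hγ0)
      nlinarith
    refine ((h1.smul (c := (2 - δ) * a0) (mul_nonneg (by linarith) ha0)).add
      (hq'.smul hc)).of_eq fun x => ?_
    simp only [Pi.add_apply, hkey]
    ring
  · have hc : 0 ≤ (2 - δ) * b0 * γ - δ * a0 := by
      have h3 : δ * a0 ≤ γ * β * a0 := mul_le_mul_of_nonneg_right hδγ ha0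
      have h4 : γ * (β * a0) ≤ γ * b0 := mul_le_mul_of_nonneg_left hab0 hγ0
      have h' : 0 ≤ (1 - δ) * (b0 * γ) := mul_nonneg (by linarith) (mul_nonneg hb0 hγ0)
      nlinarith
    refine ((h2.smul (c := (2 - δ) * b0) (mul_nonneg (by linarith) hb0)).add
      (hq.smul hc)).of_eq fun x => ?_
    simp only [Pi.add_apply, hkey]
    ring

end cone

lemma sum_comp_le {α β : Type*} [DecidableEq β] (s : Finset α) (T : Finset β) (R : α → β)
    (F : β → ℝ) (hF : ∀ b ∈ T, 0 ≤ F b) (hT : ∀ a ∈ s, R a ∈ T) (m : ℝ)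
    (hm : ∀ b ∈ T, ((s.filter (fun a => R a = b)).card : ℝ) ≤ m) :
    ∑ a ∈ s, F (R a) ≤ m * ∑ b ∈ T, F b := by
  rw [← sum_fiberwise_of_maps_to hT, mul_sum]
  refine sum_le_sum fun b hb => ?_
  rw [sum_congr rfl (g := fun _ => F b) (fun a ha => by rw [(mem_filter.1 ha).2]), sum_const,
    nsmul_eq_mul]
  exact mul_le_mul_of_nonneg_right (hm b hb) (hF b hb)

end Pool.Agent.MP_646035_al
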